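import Pool.Agent.Lib.MP_0b6b0e_gt.ZB.H94.Basic
import Pool.Agent.Lib.MP_0b6b0e_gt.ZB.H87.GB

/-!
# Smoothness is generic (module SM)
-/

set_option autoImplicit false

open Set Filter Topology MeasureTheory

open scoped InnerProductSpace

namespace Pool.Agent.Lib.MP_0b6b0e_gt.ZB.H48

open Pool.Agent.Lib.MP_0b6b0e_gt.ZB

/-- At one scale the second differences of `P` are small compared with the scale. -/
def Phi {n : ℕ} (m : ℕ) (P : EuclideanSpace ℝ (Fin n) → ℝ) : Prop :=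
  ∃ s : ℝ, 0 < s ∧ ∀ x v : EuclideanSpace ℝ (Fin n), ‖x‖ = 1 → ‖v‖ = 1 →
    P (x + s • v) + P (x - s • v) - 2 * P x ≤ s / ((m : ℝ) + 1)

theorem robust_phi (ME : MEStatement) (n m : ℕ) :
    Robust (fun P : EuclideanSpace ℝ (Fin n) → ℝ => Phi m P) := by
  intro P hP ε hε
  obtain ⟨P', hP', hclose, C, hC, hC2⟩ := ME n P hP ε hε
  refine ⟨P', hP', hclose, ?_⟩
  have hm : (0 : ℝ) < (m : ℝ) + 1 := by positivity
  set s : ℝ := 1 / (2 * C * ((m : ℝ) + 1)) with hs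
  have hs0 : 0 < s := by positivity
  set δ : ℝ := s / (2 * ((m : ℝ) + 1) * (4 + 2 * s)) with hδ
  have hδ0 : 0 < δ := by positivity
  refine ⟨δ, hδ0, ?_⟩
  intro P'' _ hc
  refine ⟨s, hs0, ?_⟩
  intro x v hx hv
  have h1 := hC2 x (s • v) hx
  have hsv : ‖s • v‖ = s := by rw [norm_smul, hv, Real.norm_of_nonneg hs0.le, mul_one]
  rw [hsv] at h1
  have hCs : C * s ^ 2 = s / (2 * ((m : ℝ) + 1)) := by
    rw [hs]; field_simp
  rw [hCs] at h1
  have a1 := (abs_le.1 (hc (x + s • v))).2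
  have a2 := (abs_le.1 (hc (x - s • v))).2
  have a3 := (abs_le.1 (hc x)).1
  have n1 : ‖x + s • v‖ ≤ 1 + s := by
    calc ‖x + s • v‖ ≤ ‖x‖ + ‖s • v‖ := norm_add_le _ _
      _ = 1 + s := by rw [hx, hsv]
  have n2 : ‖x - s • v‖ ≤ 1 + s := by
    calc ‖x - s • v‖ ≤ ‖x‖ + ‖s • v‖ := norm_sub_le _ _
      _ = 1 + s := by rw [hx, hsv]
  have b1 : δ * ‖x + s • v‖ ≤ δ * (1 + s) := mul_le_mul_of_nonneg_left n1 hδ0.le
  have b2 : δ * ‖x - s • v‖ ≤ δ * (1 + s) := mul_le_mul_of_nonneg_left n2 hδ0.le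
  rw [hx, mul_one] at a3
  have hδs : δ * (4 + 2 * s) = s / (2 * ((m : ℝ) + 1)) := by
    rw [hδ]; field_simp
  have hsum : s / (2 * ((m : ℝ) + 1)) + s / (2 * ((m : ℝ) + 1)) = s / ((m : ℝ) + 1) := by
    field_simp; ring
  nlinarith

theorem second_diff {n : ℕ} {P : EuclideanSpace ℝ (Fin n) → ℝ} (hP : IsG P) {m : ℕ}
    (h : Phi m P) :
    ∃ s : ℝ, 0 < s ∧ ∀ x h : EuclideanSpace ℝ (Fin n), x ≠ 0 → ‖h‖ ≤ s * ‖x‖ →
      P (x + h) + P (x - h) - 2 * P x ≤ ‖h‖ / ((m : ℝ) + 1) := by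
  obtain ⟨s, hs, hs2⟩ := h
  refine ⟨s, hs, ?_⟩
  intro x h hx hh
  have hm : (0 : ℝ) < (m : ℝ) + 1 := by positivity
  have hx0 : 0 < ‖x‖ := norm_pos_iff.2 hx
  by_cases h0 : h = 0
  · subst h0
    simp
    linarith
  have hh0 : 0 < ‖h‖ := norm_pos_iff.2 h0
  set e : EuclideanSpace ℝ (Fin n) := ‖x‖⁻¹ • x with he
  set v : EuclideanSpace ℝ (Fin n) := ‖h‖⁻¹ • h with hv
  have he1 : ‖e‖ = 1 := by
    rw [he, norm_smul, norm_inv, norm_norm, inv_mul_cancel₀ hx0.ne']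
  have hv1 : ‖v‖ = 1 := by
    rw [hv, norm_smul, norm_inv, norm_norm, inv_mul_cancel₀ hh0.ne']
  set τ : ℝ := ‖h‖ / (s * ‖x‖) with hτ
  have hτ0 : 0 ≤ τ := by positivity
  have hτ1 : τ ≤ 1 := by
    rw [hτ, div_le_one (by positivity)]; exact hh
  have key := hs2 e v he1 hv1
  have hxe : x = ‖x‖ • e := by rw [he, smul_smul, mul_inv_cancel₀ hx0.ne', one_smul]
  have e1 : x + h = (‖x‖ * (1 - τ)) • e + (‖x‖ * τ) • (e + s • v) := by
    have : h = (‖x‖ * τ * s) • v := by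
      rw [hv, smul_smul, hτ]
      have : ‖x‖ * (‖h‖ / (s * ‖x‖)) * s * ‖h‖⁻¹ = 1 := by field_simp
      rw [this, one_smul]
    conv_lhs => rw [hxe, this]
    module
  have e2 : x - h = (‖x‖ * (1 - τ)) • e + (‖x‖ * τ) • (e - s • v) := by
    have : h = (‖x‖ * τ * s) • v := by
      rw [hv, smul_smul, hτ]
      have : ‖x‖ * (‖h‖ / (s * ‖x‖)) * s * ‖h‖⁻¹ = 1 := by field_simp
      rw [this, one_smul]
    conv_lhs => rw [hxe, this]
    module
  have c1 : 0 ≤ ‖x‖ * (1 - τ) := mul_nonneg hx0.le (by linarith)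
  have c2 : 0 ≤ ‖x‖ * τ := mul_nonneg hx0.le hτ0
  have p1 : P (x + h) ≤ ‖x‖ * (1 - τ) * P e + ‖x‖ * τ * P (e + s • v) := by
    rw [e1]
    refine (hP.add _ _).trans ?_
    rw [hP.smul _ c1, hP.smul _ c2]
  have p2 : P (x - h) ≤ ‖x‖ * (1 - τ) * P e + ‖x‖ * τ * P (e - s • v) := by
    rw [e2]
    refine (hP.add _ _).trans ?_
    rw [hP.smul _ c1, hP.smul _ c2]
  have p3 : P x = ‖x‖ * P e := by
    conv_lhs => rw [hxe]
    rw [hP.smul _ hx0.le]
  have p4 : ‖x‖ * τ * (P (e + s • v) + P (e - s • v) - 2 * P e) ≤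
      ‖x‖ * τ * (s / ((m : ℝ) + 1)) := mul_le_mul_of_nonneg_left key c2
  have p5 : ‖x‖ * τ * (s / ((m : ℝ) + 1)) = ‖h‖ / ((m : ℝ) + 1) := by
    rw [hτ]; field_simp
  rw [p5] at p4
  have p6 : P (x + h) + P (x - h) - 2 * P x ≤
      ‖x‖ * τ * (P (e + s • v) + P (e - s • v) - 2 * P e) := by
    rw [p3]; nlinarith [p1, p2]
  linarith

theorem smooth_of_phi (DV : DVStatement) {n : ℕ} {P : EuclideanSpace ℝ (Fin n) → ℝ}
    (hP : IsG P) (h : ∀ m : ℕ, Phi m P) : Smooth P := by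
  intro x hx
  obtain ⟨l, hl, hlx⟩ := DV.1 n P hP x
  have : HasFDerivAt P l x := by
    rw [hasFDerivAt_iff_isLittleO_nhds_zero, Asymptotics.isLittleO_iff]
    intro c hc
    obtain ⟨m, hm⟩ := exists_nat_one_div_lt hc
    obtain ⟨s, hs, hs2⟩ := second_diff hP (h m)
    have hx0 : 0 < ‖x‖ := norm_pos_iff.2 hx
    have hsx : 0 < s * ‖x‖ := mul_pos hs hx0
    filter_upwards [Metric.closedBall_mem_nhds (0 : EuclideanSpace ℝ (Fin n)) hsx] with k hk
    rw [mem_closedBall_zero_iff] at hk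
    have h1 := hs2 x k hx hk
    have h2 := hl (x + k)
    have h3 := hl (x - k)
    rw [map_add, hlx] at h2
    rw [map_sub, hlx] at h3
    have h4 : ‖k‖ / ((m : ℝ) + 1) ≤ c * ‖k‖ := by
      rw [div_eq_mul_one_div, mul_comm]
      exact mul_le_mul_of_nonneg_right hm.le (norm_nonneg k)
    rw [Real.norm_eq_abs, abs_le]
    constructor
    · have : 0 ≤ c * ‖k‖ := by positivity
      linarith
    · linarith
  exact this.differentiableAt

theorem sm (TP : TPStatement) (ME : MEStatement) (DV : DVStatement) : SMStatement := by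
  intro n
  have h1 : ∀ᶠ K : Body n in residual (Body n), ∀ m : ℕ, Phi m (gf K) := by
    rw [eventually_countable_forall]
    intro m
    exact TP n _ (robust_phi ME n m)
  filter_upwards [h1] with K hK
  exact smooth_of_phi DV (H87.isG_gf K) hK

end Pool.Agent.Lib.MP_0b6b0e_gt.ZB.H48
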